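import Pool.Agent.Helper62.OP.Defs
import Pool.Agent.Helper49.NRS.ReMom

/-!
# OP: products of powers of a Dirichlet polynomial over primes with complex coefficients
-/

set_option autoImplicit false
open MeasureTheory Set Filter Topology
open Pool.Agent.Helper49.TX (ak)
open Pool.Agent.Helper49.NRS (log_gap fin_perm fin_prod_pos ak_disj sum_abs_ak)
open Pool.Agent.Helper62.OP (DC)

namespace Pool.Agent.Helper49.OP

/-- a Dirichlet polynomial with complex coefficients -/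
noncomputable def PC (N : ℕ) (α : ℕ → ℂ) (t : ℝ) : ℂ :=
  ∑ n ∈ Finset.range (N + 1), α n * (n : ℂ) ^ (-((1 / 2 : ℂ) + (t : ℂ) * Complex.I))

/-- the coefficients of the power `k` -/
noncomputable def aC (Q : Finset ℕ) (w : ℕ → ℂ) (k n : ℕ) : ℂ :=
  ∑ f ∈ (Fintype.piFinset fun _ : Fin k => Q).filter (fun f => ∏ i, f i = n), ∏ i, w (f i)

lemma DC_pow (Q : Finset ℕ) (w : ℕ → ℂ) (k N : ℕ)
    (hN : ∀ f ∈ Fintype.piFinset (fun _ : Fin k => Q), ∏ i, f i ≤ N) (t : ℝ) :
    DC Q w t ^ k = PC N (aC Q w k) t := by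
  unfold DC PC
  have h1 : (∑ p ∈ Q, w p * (p : ℂ) ^ (-((1 / 2 : ℂ) + (t : ℂ) * Complex.I))) ^ k =
      ∏ _i : Fin k, ∑ p ∈ Q, w p * (p : ℂ) ^ (-((1 / 2 : ℂ) + (t : ℂ) * Complex.I)) := by
    rw [Finset.prod_const, Finset.card_univ, Fintype.card_fin]
  rw [h1, Finset.prod_univ_sum]
  rw [← Finset.sum_fiberwise_of_maps_to (s := Fintype.piFinset fun _ : Fin k => Q) (t := Finset.range (N + 1))
    (g := fun f => ∏ i, f i) (fun f hf => Finset.mem_range.2 (Nat.lt_succ_of_le (hN f hf)))]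
  refine Finset.sum_congr rfl fun n _ => ?_
  unfold aC
  rw [Finset.sum_mul]
  refine Finset.sum_congr rfl fun f hf => ?_
  rw [Finset.mem_filter, Fintype.mem_piFinset] at hf
  rw [Finset.prod_mul_distrib, ← hf.2]
  congr 1
  have : ∀ (s : Finset (Fin k)), (((∏ i ∈ s, f i : ℕ)) : ℂ) ^ (-((1 / 2 : ℂ) + (t : ℂ) * Complex.I)) =
      ∏ i ∈ s, ((f i : ℕ) : ℂ) ^ (-((1 / 2 : ℂ) + (t : ℂ) * Complex.I)) := by
    intro s
    induction s using Finset.induction_on with
    | empty => simp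
    | insert a s ha ih =>
      rw [Finset.prod_insert ha, Finset.prod_insert ha, Nat.cast_mul, Complex.natCast_mul_natCast_cpow, ih]
  exact (this Finset.univ).symm

/-- all functions of a fiber have the same product of coefficients: the norm of the coefficient is the coefficient for
the norms -/
lemma norm_aC {Q : Finset ℕ} (hQ : ∀ p ∈ Q, p.Prime) (w : ℕ → ℂ) (k n : ℕ) :
    ‖aC Q w k n‖ = ak Q (fun p => ‖w p‖) k n := by
  unfold aC ak
  rcases Finset.eq_empty_or_nonempty ((Fintype.piFinset fun _ : Fin k => Q).filter fun f => ∏ i, f i = n) with h | ⟨g, hg⟩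
  · rw [h, Finset.sum_empty, Finset.sum_empty, norm_zero]
  · have hval : ∀ f ∈ (Fintype.piFinset fun _ : Fin k => Q).filter (fun f => ∏ i, f i = n),
        ∏ i, w (f i) = ∏ i, w (g i) := by
      intro f hf
      have hp := (fin_perm hQ hf).trans (fin_perm hQ hg).symm
      have h1 := (hp.map w).prod_eq
      rw [List.map_ofFn, List.map_ofFn, List.prod_ofFn, List.prod_ofFn] at h1
      exact h1
    have hval2 : ∀ f ∈ (Fintype.piFinset fun _ : Fin k => Q).filter (fun f => ∏ i, f i = n),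
        ∏ i, ‖w (f i)‖ = ∏ i, ‖w (g i)‖ := by
      intro f hf
      rw [← norm_prod, ← norm_prod, hval f hf]
    rw [Finset.sum_congr rfl hval, Finset.sum_congr rfl hval2, Finset.sum_const, Finset.sum_const, nsmul_eq_mul,
      nsmul_eq_mul, norm_mul, norm_prod]
    congr 1
    exact Complex.norm_natCast _

lemma aC_zero {Q : Finset ℕ} (hQ : ∀ p ∈ Q, p.Prime) (w : ℕ → ℂ) (k : ℕ) : aC Q w k 0 = 0 := by
  unfold aC
  rw [Finset.filter_eq_empty_iff.2, Finset.sum_empty]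
  intro f hf h3
  have := fin_prod_pos hQ hf
  omega

/-- powers with different exponents have disjoint supports -/
lemma aC_disj {Q : Finset ℕ} (hQ : ∀ p ∈ Q, p.Prime) (w : ℕ → ℂ) {j k : ℕ} (h : j ≠ k) (n : ℕ) :
    aC Q w j n * (starRingEnd ℂ) (aC Q w k n) = 0 := by
  rw [← norm_eq_zero, norm_mul, RCLike.norm_conj, norm_aC hQ, norm_aC hQ]
  exact ak_disj hQ _ h n

/-- the sum of the absolute values -/
lemma sum_norm_aC {Q : Finset ℕ} (hQ : ∀ p ∈ Q, p.Prime) (w : ℕ → ℂ) (k N : ℕ)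
    (hN : ∀ f ∈ Fintype.piFinset (fun _ : Fin k => Q), ∏ i, f i ≤ N) :
    ∑ n ∈ Finset.range (N + 1), ‖aC Q w k n‖ / √n ≤ (∑ p ∈ Q, ‖w p‖ / √p) ^ k := by
  have h1 := sum_abs_ak (Q := Q) (fun p => ‖w p‖) k N hN
  simp only [abs_norm] at h1
  refine le_trans (Finset.sum_le_sum fun n _ => ?_) h1
  rw [norm_aC hQ]
  exact div_le_div_of_nonneg_right (le_abs_self _) (Real.sqrt_nonneg _)

lemma ee_mul {m n : ℕ} (hm : 1 ≤ m) (hn : 1 ≤ n) (t : ℝ) :
    (m : ℂ) ^ (-((1 / 2 : ℂ) + (t : ℂ) * Complex.I)) *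
      (starRingEnd ℂ) ((n : ℂ) ^ (-((1 / 2 : ℂ) + (t : ℂ) * Complex.I))) =
    ((1 / (√m * √n) : ℝ) : ℂ) * Complex.exp ((-((Real.log m - Real.log n : ℝ) : ℂ) * Complex.I) * (t : ℂ)) := by
  rw [Pool.Agent.Helper66.HG.cpow_half hm, Pool.Agent.Helper66.HG.cpow_half hn, map_mul, Complex.conj_ofReal,
    ← Complex.exp_conj, map_mul, Complex.conj_I, map_neg, Complex.conj_ofReal]
  have h : ∀ (a b : ℝ) (x y : ℂ), (a : ℂ) * Complex.exp x * ((b : ℂ) * Complex.exp y) =
      ((a * b : ℝ) : ℂ) * Complex.exp (x + y) := by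
    intro a b x y
    push_cast
    rw [Complex.exp_add]
    ring
  rw [h, one_div_mul_one_div]
  congr 2
  push_cast
  ring

lemma ee_cont (n : ℕ) : Continuous fun t : ℝ => (n : ℂ) ^ (-((1 / 2 : ℂ) + (t : ℂ) * Complex.I)) := by
  rcases Nat.eq_zero_or_pos n with h | h
  · subst h
    have : (fun t : ℝ => ((0 : ℕ) : ℂ) ^ (-((1 / 2 : ℂ) + (t : ℂ) * Complex.I))) = fun _ => 0 := by
      funext t
      rw [Nat.cast_zero, Complex.zero_cpow]
      intro h
      have := congrArg Complex.re h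
      simp at this
    rw [this]
    exact continuous_const
  · simp_rw [Pool.Agent.Helper66.HG.cpow_half h]
    fun_prop

lemma PC_cont (N : ℕ) (α : ℕ → ℂ) : Continuous (PC N α) := by
  unfold PC
  exact continuous_finsetSum _ fun n _ => continuous_const.mul (ee_cont n)

lemma DC_cont (Q : Finset ℕ) (w : ℕ → ℂ) : Continuous (DC Q w) := by
  unfold DC
  exact continuous_finsetSum _ fun n _ => continuous_const.mul (ee_cont n)

lemma int_exp_le {c : ℝ} (hc : c ≠ 0) (a b : ℝ) :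
    ‖∫ t in a..b, Complex.exp ((-(c : ℂ) * Complex.I) * (t : ℂ))‖ ≤ 2 / |c| := by
  have hc' : -(c : ℂ) * Complex.I ≠ 0 := mul_ne_zero (neg_ne_zero.2 (by exact_mod_cast hc)) Complex.I_ne_zero
  rw [integral_exp_mul_complex hc', norm_div]
  have h1 : ∀ t : ℝ, ‖Complex.exp ((-(c : ℂ) * Complex.I) * (t : ℂ))‖ = 1 := by
    intro t
    have : (-(c : ℂ) * Complex.I) * (t : ℂ) = ((-(c * t) : ℝ) : ℂ) * Complex.I := by push_cast; ring
    rw [this, Complex.norm_exp_ofReal_mul_I]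
  have h2 : ‖-(c : ℂ) * Complex.I‖ = |c| := by
    rw [norm_mul, norm_neg, Complex.norm_I, mul_one, Complex.norm_real, Real.norm_eq_abs]
  rw [h2]
  apply div_le_div_of_nonneg_right _ (abs_nonneg _)
  refine (norm_sub_le _ _).trans ?_
  rw [h1, h1]
  norm_num

/-- mean of a product of two polynomials -/
theorem mean_mulC {N : ℕ} (hN : 1 ≤ N) {α β : ℕ → ℂ} (h0 : α 0 = 0) (h1 : β 0 = 0) (a b : ℝ) :
    ‖(∫ t in a..b, PC N α t * (starRingEnd ℂ) (PC N β t)) -
        ((b - a : ℝ) : ℂ) * ∑ n ∈ Finset.range (N + 1), α n * (starRingEnd ℂ) (β n) / n‖ ≤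
      2 * N * ((∑ n ∈ Finset.range (N + 1), ‖α n‖ / √n) * ∑ n ∈ Finset.range (N + 1), ‖β n‖ / √n) := by
  have hN0 : (0:ℝ) < N := by exact_mod_cast hN
  obtain ⟨K, hK⟩ : ∃ K : ℕ → ℕ → ℂ, K = fun m n : ℕ => ∫ t in a..b, (m : ℂ) ^ (-((1 / 2 : ℂ) + (t : ℂ) * Complex.I)) *
      (starRingEnd ℂ) ((n : ℂ) ^ (-((1 / 2 : ℂ) + (t : ℂ) * Complex.I))) := ⟨_, rfl⟩
  have hcc : ∀ m n : ℕ, Continuous fun t : ℝ => (m : ℂ) ^ (-((1 / 2 : ℂ) + (t : ℂ) * Complex.I)) *
      (starRingEnd ℂ) ((n : ℂ) ^ (-((1 / 2 : ℂ) + (t : ℂ) * Complex.I))) := fun m n =>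
    (ee_cont m).mul (Complex.continuous_conj.comp (ee_cont n))
  have e0 : ∀ t, PC N α t * (starRingEnd ℂ) (PC N β t) = ∑ m ∈ Finset.range (N + 1), ∑ n ∈ Finset.range (N + 1),
      (α m * (starRingEnd ℂ) (β n)) * ((m : ℂ) ^ (-((1 / 2 : ℂ) + (t : ℂ) * Complex.I)) *
      (starRingEnd ℂ) ((n : ℂ) ^ (-((1 / 2 : ℂ) + (t : ℂ) * Complex.I)))) := by
    intro t
    unfold PC
    rw [map_sum, Finset.sum_mul_sum]
    refine Finset.sum_congr rfl fun m _ => Finset.sum_congr rfl fun n _ => ?_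
    rw [map_mul]
    ring
  have e1 : (∫ t in a..b, PC N α t * (starRingEnd ℂ) (PC N β t)) =
      ∑ m ∈ Finset.range (N + 1), ∑ n ∈ Finset.range (N + 1), (α m * (starRingEnd ℂ) (β n)) * K m n := by
    simp_rw [e0]
    rw [intervalIntegral.integral_finsetSum]
    · refine Finset.sum_congr rfl fun m _ => ?_
      rw [intervalIntegral.integral_finsetSum]
      · refine Finset.sum_congr rfl fun n _ => ?_
        rw [intervalIntegral.integral_const_mul, hK]
      · intro n _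
        exact (continuous_const.mul (hcc m n)).intervalIntegrable _ _
    · intro m _
      exact (continuous_finsetSum _ fun n _ => continuous_const.mul (hcc m n)).intervalIntegrable _ _
  have e2 : ((b - a : ℝ) : ℂ) * ∑ n ∈ Finset.range (N + 1), α n * (starRingEnd ℂ) (β n) / n =
      ∑ m ∈ Finset.range (N + 1), ∑ n ∈ Finset.range (N + 1),
        if m = n then (α m * (starRingEnd ℂ) (β n)) * (((b - a : ℝ) : ℂ) / n) else 0 := by
    rw [Finset.mul_sum]
    refine Finset.sum_congr rfl fun m hm => ?_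
    rw [Finset.sum_ite_eq, if_pos hm]
    ring
  rw [e1, e2, ← Finset.sum_sub_distrib, Finset.sum_mul_sum, Finset.mul_sum]
  refine (norm_sum_le _ _).trans (Finset.sum_le_sum fun m hm => ?_)
  rw [← Finset.sum_sub_distrib, Finset.mul_sum]
  refine (norm_sum_le _ _).trans (Finset.sum_le_sum fun n hn => ?_)
  rw [Finset.mem_range] at hm hn
  have hnn : 0 ≤ 2 * (N:ℝ) * (‖α m‖ / √m * (‖β n‖ / √n)) := by positivity
  rcases Nat.eq_zero_or_pos m with h | h
  · subst h
    rw [h0]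
    simp
  rcases Nat.eq_zero_or_pos n with h' | h'
  · subst h'
    rw [h1]
    simp
  have hm0 : (0:ℝ) < m := by exact_mod_cast h
  have hn0 : (0:ℝ) < n := by exact_mod_cast h'
  have hKe : K m n = ((1 / (√m * √n) : ℝ) : ℂ) *
      ∫ t in a..b, Complex.exp ((-((Real.log m - Real.log n : ℝ) : ℂ) * Complex.I) * (t : ℂ)) := by
    rw [hK]
    simp only
    rw [← intervalIntegral.integral_const_mul]
    refine intervalIntegral.integral_congr fun t _ => ?_
    exact ee_mul h h' t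
  by_cases hmn : m = n
  · subst hmn
    rw [if_pos rfl]
    have : K m m = ((b - a : ℝ) : ℂ) / m := by
      rw [hKe, Real.mul_self_sqrt hm0.le]
      simp
      ring
    rw [this, sub_self, norm_zero]
    exact hnn
  · rw [if_neg hmn, sub_zero]
    have hg := log_gap h h' (by omega : m ≤ N) (by omega) hmn
    have hc : Real.log m - Real.log n ≠ 0 := by
      intro h2
      rw [h2, abs_zero] at hg
      have : 0 < 1 / (N:ℝ) := by positivity
      linarith
    have hKb : ‖∫ t in a..b, Complex.exp ((-((Real.log m - Real.log n : ℝ) : ℂ) * Complex.I) * (t : ℂ))‖ ≤ 2 * N := by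
      refine (int_exp_le hc a b).trans ?_
      rw [div_le_iff₀ (abs_pos.2 hc)]
      rw [div_le_iff₀ hN0] at hg
      nlinarith
    rw [hKe, norm_mul, norm_mul, norm_mul, RCLike.norm_conj, Complex.norm_real, Real.norm_eq_abs,
      abs_of_nonneg (by positivity : (0:ℝ) ≤ 1 / (√(m:ℝ) * √n))]
    calc ‖α m‖ * ‖β n‖ * (1 / (√m * √n) *
          ‖∫ t in a..b, Complex.exp ((-((Real.log m - Real.log n : ℝ) : ℂ) * Complex.I) * (t : ℂ))‖)
        ≤ ‖α m‖ * ‖β n‖ * (1 / (√m * √n) * (2 * N)) := by gcongr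
      _ = _ := by
        field_simp

end Pool.Agent.Helper49.OP
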